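import Pool.Agent.Y358.IN.Ind

/-!
# Independent sets outside a set of vertices, sharp version

In a graph of girth at least twelve with degrees at least three the vertices at odd distance at most
five from one of two adjacent vertices form two independent sets with at least 126 elements in
their union.
-/

set_option autoImplicit false
set_option linter.unusedSectionVars false

namespace Pool.Agent.Y358.IN

open Finset Pool.Agent.TH676.Z Pool.Agent.Y335.FL

section

variable {V E : Type} [Fintype V] [DecidableEq V] [Fintype E] [DecidableEq E]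

/-- the class -/
def ClJ (src dst : E → V) : Prop := ∃ S : Finset V, ∀ I : Finset V, (∀ x ∈ I, x ∉ S) →
  (∀ x ∈ I, 3 ≤ dg src dst x) → (∀ x ∈ I, ∀ y ∈ I, ¬ Adj src dst x y) →
    2 * I.card + S.card ≤ 125

theorem ccJ : CC (V := V) (E := E) ClJ := by
  intro src dst e h hne
  obtain ⟨S, hS⟩ := h
  set u := src e with hu
  set v := dst e with hv
  refine ⟨S.image (ctr u v), ?_⟩
  intro I hIS hdg hind
  have hvI : v ∉ I := by
    intro h
    have h1 := hdg v h
    rw [Ord.dg_ctr_v src dst hne] at h1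
    omega
  have hxS : ∀ x ∈ I, x ∉ S := by
    intro x hx hxS
    apply hIS x hx
    have : x ≠ v := fun h => hvI (h ▸ hx)
    exact mem_image.2 ⟨x, hxS, ctr_of_ne this⟩
  have hcard : (S.image (ctr u v)).card ≤ S.card := card_image_le
  by_cases huI : u ∈ I
  · have h2 : dg (ctr u v ∘ src) (ctr u v ∘ dst) u + 2 ≤ dg src dst u + dg src dst v :=
      Ord.dg_ctr_u src dst e hne
    have h3 := hdg u huI
    obtain ⟨w, hw, hwd⟩ : ∃ w, (w = u ∨ w = v) ∧ 3 ≤ dg src dst w := by
      by_cases h4 : 3 ≤ dg src dst u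
      · exact ⟨u, Or.inl rfl, h4⟩
      · exact ⟨v, Or.inr rfl, by omega⟩
    have hcw : ctr u v w = u := by
      rcases hw with rfl | rfl
      · exact ctr_u _ _ hne
      · exact ctr_v _ _
    have hwS : w ∉ S := fun h => hIS u huI (mem_image.2 ⟨w, h, hcw⟩)
    have hwI : w ∉ I.erase u := by
      rcases hw with h | h
      · rw [h]
        exact fun h => (mem_erase.1 h).1 rfl
      · rw [h]
        exact fun h => hvI (mem_of_mem_erase h)
    have hwx : ∀ x ∈ I.erase u, ¬ Adj src dst w x := by
      intro x hx hadj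
      have hxI := mem_of_mem_erase hx
      have hxu : x ≠ u := (mem_erase.1 hx).1
      have hxv : x ≠ v := fun h => hvI (h ▸ hxI)
      have h5 := adj_ctr (u := u) (v := v) hadj (by
        rw [hcw, ctr_of_ne hxv]
        exact hxu.symm)
      rw [hcw, ctr_of_ne hxv] at h5
      exact hind u huI x hxI h5
    have h6 := hS (insert w (I.erase u)) ?_ ?_ ?_
    · rw [card_insert_of_notMem hwI, card_erase_of_mem huI] at h6
      have h7 : 0 < I.card := card_pos.2 ⟨u, huI⟩
      omega
    · intro x hx
      rcases mem_insert.1 hx with rfl | hx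
      · exact hwS
      · exact hxS x (mem_of_mem_erase hx)
    · intro x hx
      rcases mem_insert.1 hx with rfl | hx
      · exact hwd
      · exact (hdg x (mem_of_mem_erase hx)).trans
          (Ord.dg_ctr_other src dst (mem_erase.1 hx).1)
    · intro x hx y hy hadj
      rcases mem_insert.1 hx with hx | hx <;> rcases mem_insert.1 hy with hy | hy
      · exact hadj.1 (hx.trans hy.symm)
      · rw [hx] at hadj
        exact hwx y hy hadj
      · rw [hy] at hadj
        exact hwx x hx (GiAux.adj_symm hadj)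
      · have hx' := mem_of_mem_erase hx
        have hy' := mem_of_mem_erase hy
        have hxv : x ≠ v := fun h => hvI (h ▸ hx')
        have hyv : y ≠ v := fun h => hvI (h ▸ hy')
        have h5 := adj_ctr (u := u) (v := v) hadj (by
          rw [ctr_of_ne hxv, ctr_of_ne hyv]
          exact hadj.1)
        rw [ctr_of_ne hxv, ctr_of_ne hyv] at h5
        exact hind x hx' y hy' h5
  · have h6 := hS I hxS ?_ ?_
    · omega
    · intro x hx
      refine (hdg x hx).trans (Ord.dg_ctr_other src dst ?_)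
      rintro rfl
      exact huI hx
    · intro x hx y hy hadj
      have hxv : x ≠ v := fun h => hvI (h ▸ hx)
      have hyv : y ≠ v := fun h => hvI (h ▸ hy)
      have h5 := adj_ctr (u := u) (v := v) hadj (by
        rw [ctr_of_ne hxv, ctr_of_ne hyv]
        exact hadj.1)
      rw [ctr_of_ne hxv, ctr_of_ne hyv] at h5
      exact hind x hx y hy h5

end

section tree

variable {V : Type} [Fintype V] [DecidableEq V] {G : SimpleGraph V}

open Classical in
/-- the vertices which are joined to `x` by a path of odd length at most five -/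
noncomputable def Po (G : SimpleGraph V) (x : V) : Finset V :=
  univ.filter (fun v => ∃ p : G.Walk x v, p.IsPath ∧ p.length % 2 = 1 ∧ p.length ≤ 5)

theorem mem_Po {x v : V} : v ∈ Po G x ↔
    ∃ p : G.Walk x v, p.IsPath ∧ p.length % 2 = 1 ∧ p.length ≤ 5 := by
  classical
  unfold Po
  rw [mem_filter]
  exact ⟨fun h => h.2, fun h => ⟨mem_univ _, h⟩⟩

theorem Po_indep (h12 : ∀ (w : V) (c : G.Walk w w), c.IsCycle → 12 ≤ c.length) (x : V) :
    ∀ u ∈ Po G x, ∀ w ∈ Po G x, ¬ G.Adj u w := by
  classical
  intro u hu w hw hadj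
  obtain ⟨p, hp, hpo, hp5⟩ := mem_Po.1 hu
  obtain ⟨q, hq, hqo, hq5⟩ := mem_Po.1 hw
  by_cases hws : w ∈ p.support
  · have h1 := Ord.uniq h12 (hp.takeUntil hws) hq (by
      have := p.length_takeUntil_le_length hws
      omega)
    have h2 := Ord.uniq h12 (hp.dropUntil hws) (Ord.edge_path hadj.symm) (by
      have := p.length_dropUntil_le_length hws
      simp only [SimpleGraph.Walk.length_cons, SimpleGraph.Walk.length_nil]
      omega)
    have h3 : (p.takeUntil w hws).length + (p.dropUntil w hws).length = p.length := by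
      rw [← SimpleGraph.Walk.length_append, SimpleGraph.Walk.take_spec]
    have h4 := congrArg SimpleGraph.Walk.length h1
    have h5 := congrArg SimpleGraph.Walk.length h2
    simp only [SimpleGraph.Walk.length_cons, SimpleGraph.Walk.length_nil] at h5
    omega
  · have h1 := Ord.uniq h12 (hp.concat hws hadj) hq (by
      rw [SimpleGraph.Walk.length_concat]
      omega)
    have h2 := congrArg SimpleGraph.Walk.length h1
    rw [SimpleGraph.Walk.length_concat] at h2
    omega

theorem Ds_sub {x y : V} (hxy : G.Adj x y) : Ord.Ds G x y ⊆ Po G x ∪ Po G y := by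
  intro v hv
  obtain ⟨d, hd, hv⟩ := mem_biUnion.1 hv
  obtain ⟨p, hp, hpl, hyp⟩ := Ord.mem_Bs.1 hv
  have hd6 := mem_range.1 hd
  rw [mem_union]
  rcases Nat.mod_two_eq_zero_or_one d with h | h
  · right
    refine mem_Po.2 ⟨SimpleGraph.Walk.cons hxy.symm p,
      (SimpleGraph.Walk.cons_isPath_iff hxy.symm p).2 ⟨hp, hyp⟩, ?_, ?_⟩
    · rw [SimpleGraph.Walk.length_cons, hpl]
      omega
    · rw [SimpleGraph.Walk.length_cons, hpl]
      omega
  · left
    exact mem_Po.2 ⟨p, hp, by rw [hpl]; exact h, by rw [hpl]; omega⟩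

theorem card_Po (h12 : ∀ (w : V) (c : G.Walk w w), c.IsCycle → 12 ≤ c.length)
    (h3 : ∀ x y, G.Adj x y → ∃ a b c, G.Adj x a ∧ G.Adj x b ∧ G.Adj x c ∧ a ≠ b ∧ a ≠ c ∧ b ≠ c)
    {x y : V} (hxy : G.Adj x y) : 126 ≤ (Po G x ∪ Po G y).card := by
  classical
  have k1 := Ord.card_Ds h12 h3 hxy
  have k2 := Ord.card_Ds h12 h3 hxy.symm
  have k3 : Disjoint (Ord.Ds G x y) (Ord.Ds G y x) := by
    rw [disjoint_left]
    intro v hv hv'
    obtain ⟨d, hd, hv⟩ := mem_biUnion.1 hv
    obtain ⟨e, he, hv'⟩ := mem_biUnion.1 hv'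
    obtain ⟨p, hp, hpl, hyp⟩ := Ord.mem_Bs.1 hv
    obtain ⟨q, hq, hql, hxq⟩ := Ord.mem_Bs.1 hv'
    have h1 := mem_range.1 hd
    have h2 := mem_range.1 he
    have h4 := Ord.uniq h12 hp ((SimpleGraph.Walk.cons_isPath_iff hxy q).2 ⟨hq, hxq⟩) (by
      rw [SimpleGraph.Walk.length_cons]
      omega)
    apply hyp
    rw [h4, SimpleGraph.Walk.support_cons]
    exact List.mem_cons_of_mem _ q.start_mem_support
  have k4 : Ord.Ds G y x ⊆ Po G x ∪ Po G y := by
    rw [union_comm]
    exact Ds_sub hxy.symm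
  have k5 := card_le_card (union_subset (Ds_sub hxy) k4)
  rw [card_union_of_disjoint k3] at k5
  omega

end tree

/-- **Main step.** -/
theorem flow_of_ClJ (hc : St_contract) {V E : Type} [Fintype V] [DecidableEq V]
    [Fintype E] [DecidableEq E] (src dst : E → V) (hcl : ClJ src dst) (hbr : Br src dst ∅ ∅) :
    FlowOn src dst ∅ ∅ := by
  classical
  by_contra hn
  obtain ⟨s, d, ⟨S, hS⟩, hM⟩ := exists_minC ccJ src dst hcl hbr hn
  have h3 := threeC hc hM
  have hgi := girthC hc hM
  by_cases hl : ∀ e, s e = d e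
  · exact hM.nf (flow_of_loops hl)
  push Not at hl
  obtain ⟨e, he⟩ := hl
  let G : SimpleGraph V :=
    { Adj := Adj s d
      symm := ⟨fun a b h => GiAux.adj_symm h⟩
      loopless := ⟨fun a h => h.1 rfl⟩ }
  have hG : ∀ a b, G.Adj a b ↔ Adj s d a b := fun a b => Iff.rfl
  have h12 : ∀ (w : V) (c : G.Walk w w), c.IsCycle → 12 ≤ c.length :=
    fun w c hc => Ord.cycle_len hgi G hG c hc
  have hxy : G.Adj (s e) (d e) := ⟨he, e, Or.inl ⟨rfl, rfl⟩⟩
  have hcard := card_Po h12 (fun x y h => h3 x y h) hxy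
  have key : ∀ x y : V, G.Adj x y → 2 * (Po G x \ S).card + S.card ≤ 125 := by
    intro x y hxy
    refine hS (Po G x \ S) (fun v hv => (mem_sdiff.1 hv).2) (fun v hv => ?_) ?_
    · obtain ⟨p, _, _, _⟩ := mem_Po.1 (mem_sdiff.1 hv).1
      obtain ⟨z, hz⟩ := Ord.nbr hxy p
      exact Ord.three_dg h3 hz
    · intro u hu w hw hadj
      exact Po_indep h12 x u (mem_sdiff.1 hu).1 w (mem_sdiff.1 hw).1 hadj
  have k1 := key _ _ hxy
  have k2 := key _ _ hxy.symm
  have k3 : (Po G (s e) ∪ Po G (d e)).card ≤ (Po G (s e) \ S).card + (Po G (d e) \ S).card +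
      S.card := by
    have h4 : Po G (s e) ∪ Po G (d e) ⊆ (Po G (s e) \ S) ∪ (Po G (d e) \ S) ∪ S := by
      intro v hv
      by_cases hvS : v ∈ S
      · exact mem_union_right _ hvS
      · refine mem_union_left _ ?_
        rcases mem_union.1 hv with h | h
        · exact mem_union_left _ (mem_sdiff.2 ⟨h, hvS⟩)
        · exact mem_union_right _ (mem_sdiff.2 ⟨h, hvS⟩)
    exact (card_le_card h4).trans ((card_union_le _ _).trans
      (Nat.add_le_add_right (card_union_le _ _) _))
  omega

end Pool.Agent.Y358.IN
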