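import Pool.Agent.Y358.IN.Dirac

/-!
# Weights of the vertices of degree at least three

If the sum of `1 / (max (|N(v)|, 3) - 2)` over the vertices `v` of degree at least three, where
`N(v)` is the set of the neighbours of degree at least three, is less than 126, then a bridgeless
graph has a nowhere-zero flow.
-/

set_option autoImplicit false
set_option linter.unusedSectionVars false

namespace Pool.Agent.Y358.IN

open Finset Pool.Agent.TH676.Z Pool.Agent.Y335.FL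

section

variable {V E : Type} [Fintype V] [DecidableEq V] [Fintype E] [DecidableEq E]

open Classical in
/-- the neighbours of degree at least three -/
noncomputable def nt (src dst : E → V) (v : V) : Finset V :=
  univ.filter (fun w => Adj src dst v w ∧ 3 ≤ dg src dst w)

/-- the weight -/
noncomputable def wu (src dst : E → V) (v : V) : ℝ :=
  1 / (((max (nt src dst v).card 3 : ℕ) : ℝ) - 2)

theorem wu_nonneg (src dst : E → V) (v : V) : 0 ≤ wu src dst v := by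
  unfold wu
  have h : (3 : ℝ) ≤ ((max (nt src dst v).card 3 : ℕ) : ℝ) := by
    exact_mod_cast le_max_right _ _
  apply div_nonneg zero_le_one
  linarith

/-- the contractions of a graph -/
def ClQ (s0 d0 : E → V) (src dst : E → V) : Prop := ∃ r : V → V, (src = r ∘ s0 ∧ dst = r ∘ d0) ∧
  ∀ h, 3 ≤ dg src dst h → ∃ v, r v = h ∧ 3 ≤ dg s0 d0 v

theorem ccQ (s0 d0 : E → V) : CC (ClQ s0 d0) := by
  rintro src dst e ⟨r, ⟨h1, h2⟩, hr⟩ hne
  set u := src e with hu
  set v := dst e with hv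
  refine ⟨ctr u v ∘ r, ⟨by rw [h1]; rfl, by rw [h2]; rfl⟩, ?_⟩
  intro h hh
  by_cases hhv : h = v
  · rw [hhv, Ord.dg_ctr_v src dst hne] at hh
    omega
  · by_cases hhu : h = u
    · have h5 : dg (ctr u v ∘ src) (ctr u v ∘ dst) u + 2 ≤ dg src dst u + dg src dst v :=
        Ord.dg_ctr_u src dst e hne
      rw [hhu] at hh
      by_cases h4 : 3 ≤ dg src dst u
      · obtain ⟨w, hw, hw3⟩ := hr u h4
        exact ⟨w, by rw [Function.comp_apply, hw, ctr_u' hne, hhu], hw3⟩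
      · obtain ⟨w, hw, hw3⟩ := hr v (by omega)
        exact ⟨w, by rw [Function.comp_apply, hw, ctr_v' u v, hhu], hw3⟩
    · obtain ⟨w, hw, hw3⟩ := hr h (hh.trans (Ord.dg_ctr_other src dst hhu))
      refine ⟨w, ?_, hw3⟩
      rw [Function.comp_apply, hw]
      unfold ctr
      rw [if_neg hhv]
where
  ctr_u' {u v : V} (h : u ≠ v) : ctr u v u = u := by
    unfold ctr
    rw [if_neg h]
  ctr_v' (u v : V) : ctr u v v = u := by
    unfold ctr
    rw [if_pos rfl]

/-- the vertices of degree at least three in a fibre -/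
def fb (r : V → V) (s0 d0 : E → V) (h : V) : Finset V :=
  univ.filter (fun v => r v = h ∧ 3 ≤ dg s0 d0 v)

theorem mem_fb {r : V → V} {s0 d0 : E → V} {h v : V} :
    v ∈ fb r s0 d0 h ↔ r v = h ∧ 3 ≤ dg s0 d0 v := by simp [fb]

theorem sum_ou' (r : V → V) (s0 d0 : E → V) (h : V) :
    ∑ v ∈ fb r s0 d0 h, (ou r s0 d0 v).card ≤ dg (r ∘ s0) (r ∘ d0) h := by
  refine le_trans (sum_le_sum_of_subset ?_) (sum_ou r s0 d0 h)
  intro v hv
  exact mem_filter.2 ⟨mem_univ _, (mem_fb.1 hv).1⟩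

theorem nt_le (r : V → V) (s0 d0 : E → V) (h v : V) (hv : v ∈ fb r s0 d0 h) :
    (nt s0 d0 v).card + 1 ≤ (fb r s0 d0 h).card + (ou r s0 d0 v).card := by
  classical
  set F := fb r s0 d0 h with hF
  have hrv := (mem_fb.1 hv).1
  have h1 : nt s0 d0 v ⊆ F.erase v ∪
      (ou r s0 d0 v).image (fun e => if s0 e = v then d0 e else s0 e) := by
    intro w hw
    obtain ⟨⟨hne, e, he⟩, hw3⟩ := (mem_filter.1 hw).2
    by_cases hwF : r w = r v
    · exact mem_union_left _ (mem_erase.2 ⟨hne.symm, mem_fb.2 ⟨hwF.trans hrv, hw3⟩⟩)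
    · refine mem_union_right _ (mem_image.2 ⟨e, ?_, ?_⟩)
      · rw [mem_ou]
        rcases he with ⟨a, b⟩ | ⟨a, b⟩
        · rw [a, b]
          exact ⟨fun h => hwF h.symm, Or.inl rfl⟩
        · rw [a, b]
          exact ⟨hwF, Or.inr rfl⟩
      · rcases he with ⟨a, b⟩ | ⟨a, b⟩
        · rw [if_pos a, b]
        · have : s0 e ≠ v := by rw [a]; exact hne.symm
          rw [if_neg this, a]
  have h2 := (card_le_card h1).trans (card_union_le _ _)
  have h3 : ((ou r s0 d0 v).image (fun e => if s0 e = v then d0 e else s0 e)).card ≤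
      (ou r s0 d0 v).card := card_image_le
  rw [card_erase_of_mem hv] at h2
  have h4 : 0 < F.card := card_pos.2 ⟨v, hv⟩
  omega

/-- the weight of a fibre -/
theorem fibre' (r : V → V) (s0 d0 : E → V) (h : V) (h3 : 3 ≤ dg (r ∘ s0) (r ∘ d0) h)
    (hne : ∃ v, r v = h ∧ 3 ≤ dg s0 d0 v) :
    1 / ((dg (r ∘ s0) (r ∘ d0) h : ℝ) - 2) ≤ ∑ v ∈ fb r s0 d0 h, wu s0 d0 v := by
  set D := dg (r ∘ s0) (r ∘ d0) h with hD
  set F := fb r s0 d0 h with hF
  have hD3 : (3 : ℝ) ≤ D := by exact_mod_cast h3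
  have hFne : F.Nonempty := by
    obtain ⟨v, hv⟩ := hne
    exact ⟨v, mem_fb.2 hv⟩
  by_cases hsm : ∃ v ∈ F, (nt s0 d0 v).card ≤ 3
  · obtain ⟨v, hv, hv3⟩ := hsm
    have h5 : wu s0 d0 v = 1 := by
      unfold wu
      rw [max_eq_right hv3]
      norm_num
    have h6 : wu s0 d0 v ≤ ∑ v ∈ F, wu s0 d0 v :=
      single_le_sum (fun w _ => wu_nonneg s0 d0 w) hv
    have h7 : 1 / ((D : ℝ) - 2) ≤ 1 := by
      rw [div_le_one (by linarith)]
      linarith
    linarith
  · push Not at hsm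
    set t : ℝ := (F.card : ℝ) with ht
    have ht1 : 1 ≤ t := by
      rw [ht]
      exact_mod_cast card_pos.2 hFne
    have hnb : ∀ v ∈ F, ((nt s0 d0 v).card : ℝ) + 1 ≤ t + (ou r s0 d0 v).card := by
      intro v hv
      have h4 := nt_le r s0 d0 h v hv
      rw [ht]
      exact_mod_cast h4
    have hg : ∀ v ∈ F, (0 : ℝ) < t - 3 + (ou r s0 d0 v).card := by
      intro v hv
      have h5 := hnb v hv
      have h6 : (4 : ℝ) ≤ (nt s0 d0 v).card := by exact_mod_cast hsm v hv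
      linarith
    have hw : ∀ v ∈ F, 1 ^ 2 / (t - 3 + (ou r s0 d0 v).card) ≤ wu s0 d0 v := by
      intro v hv
      have h5 := hnb v hv
      have h6 : (4 : ℝ) ≤ (nt s0 d0 v).card := by exact_mod_cast hsm v hv
      unfold wu
      rw [max_eq_left (by have := hsm v hv; omega), one_pow]
      apply one_div_le_one_div_of_le (by linarith)
      linarith
    have h7 := sq_sum_div_le_sum_sq_div F (fun _ => (1 : ℝ)) hg
    have h8 : ∑ v ∈ F, ((1 : ℝ) ^ 2 / (t - 3 + (ou r s0 d0 v).card)) ≤ ∑ v ∈ F, wu s0 d0 v :=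
      sum_le_sum hw
    refine le_trans ?_ (h7.trans h8)
    have h9 : ∑ _v ∈ F, (1 : ℝ) = t := by simp [ht]
    have h10 : ∑ v ∈ F, (t - 3 + ((ou r s0 d0 v).card : ℝ)) ≤ t ^ 2 - 3 * t + D := by
      rw [sum_add_distrib, sum_const, nsmul_eq_mul, ← Nat.cast_sum]
      have h11 : ((∑ v ∈ F, (ou r s0 d0 v).card : ℕ) : ℝ) ≤ D := by
        exact_mod_cast sum_ou' r s0 d0 h
      rw [← ht]
      linarith [sq t]
    have h12 : 0 < ∑ v ∈ F, (t - 3 + ((ou r s0 d0 v).card : ℝ)) := sum_pos hg hFne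
    rw [h9, div_le_div_iff₀ (by linarith) h12, one_mul]
    exact h10.trans (poly1 ht1 hD3)

/-- **Main step.** -/
theorem flow_of_weight' (hc : St_contract) (ha : St_ahl) (s0 d0 : E → V)
    (hw : ∑ v ∈ univ.filter (fun v => 3 ≤ dg s0 d0 v), wu s0 d0 v < 126)
    (hbr : Br s0 d0 ∅ ∅) : FlowOn s0 d0 ∅ ∅ := by
  classical
  by_contra hn
  obtain ⟨s, d, ⟨r, ⟨rfl, rfl⟩, hr⟩, hM⟩ := exists_minC (ccQ s0 d0) s0 d0
    ⟨id, ⟨rfl, rfl⟩, fun h hh => ⟨h, rfl, hh⟩⟩ hbr hn
  by_cases hl : ∀ e, (r ∘ s0) e = (r ∘ d0) e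
  · exact hM.nf (flow_of_loops hl)
  push Not at hl
  obtain ⟨e, he⟩ := hl
  have h1 := weight_min hc ha hM ⟨(r ∘ s0) e, (r ∘ d0) e, he, e, Or.inl ⟨rfl, rfl⟩⟩
  have h2 : ∑ h, (if 3 ≤ dg (r ∘ s0) (r ∘ d0) h then 1 / ((dg (r ∘ s0) (r ∘ d0) h : ℝ) - 2)
      else 0) ≤ ∑ h, ∑ v ∈ (univ.filter (fun v => 3 ≤ dg s0 d0 v)).filter (fun v => r v = h),
        wu s0 d0 v := by
    refine sum_le_sum fun h _ => ?_
    have h5 : (univ.filter (fun v => 3 ≤ dg s0 d0 v)).filter (fun v => r v = h) =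
        fb r s0 d0 h := by
      ext v
      rw [mem_fb, mem_filter, mem_filter]
      exact ⟨fun h => ⟨h.2, h.1.2⟩, fun h => ⟨⟨mem_univ _, h.2⟩, h.1⟩⟩
    rw [h5]
    split_ifs with h3
    · exact fibre' r s0 d0 h h3 (hr h h3)
    · exact sum_nonneg fun v _ => wu_nonneg s0 d0 v
  rw [sum_fiberwise] at h2
  linarith

end

end Pool.Agent.Y358.IN
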