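import Pool.Agent.TH676.Z.Crit
import Pool.Agent.TH676.Z.Cut3
import Pool.Agent.TH676.Z.Gi
import Pool.Agent.Y335.FL.Stm2
import Pool.Agent.Y335.FL.Girth

/-!
# Classes of graphs closed under contractions

A counterexample to the 5-flow conjecture which is minimal in a class closed under contractions
(deletions are not needed) has girth at least twelve and all degrees at least three.
-/

set_option autoImplicit false
set_option linter.unusedSectionVars false

namespace Pool.Agent.Y358.IN

open Finset Pool.Agent.TH676.Z Pool.Agent.Y335.FL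

section

variable {V E : Type} [Fintype V] [DecidableEq V] [Fintype E] [DecidableEq E]

/-- the class is closed under contractions -/
def CC (Cl : (E → V) → (E → V) → Prop) : Prop := ∀ src dst (e : E), Cl src dst →
  src e ≠ dst e → Cl (ctr (src e) (dst e) ∘ src) (ctr (src e) (dst e) ∘ dst)

/-- a counterexample whose proper contractions have flows -/
structure MinC (src dst : E → V) : Prop where
  br : Br src dst ∅ ∅
  nf : ¬ FlowOn src dst ∅ ∅
  crit : ∀ C : Finset E, (∃ e ∈ C, src e ≠ dst e) → FlowOn src dst ∅ C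

theorem exists_minC {Cl : (E → V) → (E → V) → Prop} (hCl : CC Cl) (src dst : E → V)
    (h1 : Cl src dst) (h2 : Br src dst ∅ ∅) (h3 : ¬ FlowOn src dst ∅ ∅) :
    ∃ s d : E → V, Cl s d ∧ MinC s d := by
  classical
  have hex : ∃ m, ∃ s d : E → V, Cl s d ∧ Br s d ∅ ∅ ∧ ¬ FlowOn s d ∅ ∅ ∧
      (Crit.nl s d).card = m := ⟨_, src, dst, h1, h2, h3, rfl⟩
  obtain ⟨s, d, hs1, hs2, hs3, hs4⟩ := Nat.find_spec hex
  refine ⟨s, d, hs1, hs2, hs3, ?_⟩
  rintro C ⟨e, heC, hne⟩
  set s1 := ctr (s e) (d e) ∘ s with hs1'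
  set d1 := ctr (s e) (d e) ∘ d with hd1'
  have hnot : e ∉ Crit.nl s1 d1 := Crit.not_nl_ctr e
  have hsub : Crit.nl s1 d1 ⊆ Crit.nl s d := Crit.nl_ctr_sub _ _
  have hlt : (Crit.nl s1 d1).card < (Crit.nl s d).card :=
    card_lt_card ⟨hsub, fun h => hnot (h (Crit.mem_nl.mpr hne))⟩
  have hfl : FlowOn s1 d1 ∅ ∅ := by
    by_contra h8
    rw [hs4] at hlt
    refine Nat.find_min hex hlt ⟨s1, d1, hCl s d e hs1 hne, ?_, h8, rfl⟩
    intro Y _
    rw [hs1', hd1', Crit.crs_ctr]
    exact hs2 _ (disjoint_empty_right _)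
  obtain ⟨f, hf0, _, hf2⟩ := hfl
  have hb : ∀ x, x ≠ s e → x ≠ d e → bd s d f x = 0 := by
    intro x h1 h2
    have h3 := hf0 x
    rw [hs1', hd1', Crit.bd_ctr s d _ _ hne, if_neg h2, if_neg h1] at h3
    exact h3
  have hb2 : bd s d f (s e) + bd s d f (d e) = 0 := by
    have h3 := hf0 (s e)
    rw [hs1', hd1', Crit.bd_ctr s d _ _ hne, if_neg hne, if_pos rfl] at h3
    exact h3
  refine ⟨f + Pi.single e (bd s d f (d e)), fun v => ?_, fun x hx => absurd hx (notMem_empty x),
    fun x _ h2 => ?_⟩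
  · rw [Crit.bd_add, Crit.bd_single]
    by_cases h1 : s e = v
    · have h2 : d e ≠ v := fun h => hne (h1.trans h.symm)
      rw [if_pos h1, if_neg h2, sub_zero, ← h1, hb2]
    · by_cases h2 : d e = v
      · rw [if_neg h1, if_pos h2, zero_sub, ← h2, add_neg_cancel]
      · rw [if_neg h1, if_neg h2, hb v (Ne.symm h1) (Ne.symm h2)]; simp
  · have h3 : x ≠ e := fun h => h2 (h ▸ heC)
    rw [Pi.add_apply, Pi.single_eq_of_ne h3, add_zero]
    exact hf2 x (notMem_empty x) (notMem_empty x)

variable {src dst : E → V}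

theorem jn_ne {e : E} {x y : V} (hxy : x ≠ y) (h : Jn src dst e x y) : src e ≠ dst e := by
  rcases h with ⟨a, b⟩ | ⟨a, b⟩
  · rw [a, b]; exact hxy
  · rw [a, b]; exact hxy.symm

/-- no circuit with at most eleven edges -/
theorem no_circ (hc : St_contract) (hM : MinC src dst) (k : ℕ) (hk : k ≤ 9)
    (v : Fin (k + 2) → V) (ed : Fin (k + 2) → E) (hv : Function.Injective v)
    (hed : Function.Injective ed) (hj : ∀ i, Jn src dst (ed i) (v i) (v (i + 1))) : False := by
  have hflow : FlowOn src dst ∅ (univ.image ed) := by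
    apply hM.crit
    refine ⟨ed 0, mem_image_of_mem _ (mem_univ _), ?_⟩
    exact jn_ne (GirthX.succ_ne hv 0) (hj 0)
  exact hM.nf (hc V E src dst ∅ k hk v ed hv hed hj (fun i => notMem_empty _) hflow)

theorem girthC (hc : St_contract) (hM : MinC src dst) : Girth (Adj src dst) 12 := by
  intro k hk v hv hA
  choose hne ed hj using hA
  have hinj : Function.Injective ed := GirthX.ed_inj (src := src) (dst := dst) hv hj
  exact no_circ hc hM (k + 1) (by omega) v ed hv hinj hj

theorem no_par (hc : St_contract) (hM : MinC src dst) {e e' : E} {x y : V} (hxy : x ≠ y)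
    (h : Jn src dst e x y) (h' : Jn src dst e' x y) : e = e' := by
  by_contra hne
  refine no_circ hc hM 0 (by norm_num) ![x, y] ![e, e'] ?_ ?_ ?_
  · intro i j hij
    fin_cases i <;> fin_cases j <;> simp_all
  · intro i j hij
    fin_cases i <;> fin_cases j <;> simp_all
  · intro i
    fin_cases i
    · exact h
    · exact h'.symm

/-- every vertex which is not isolated is on at least three proper edges -/
theorem cut_three (hM : MinC src dst) {x y : V} (hxy : Adj src dst x y) :
    3 ≤ (crs src dst {x}).card := by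
  obtain ⟨hne, e, he⟩ := hxy
  have hmem : e ∈ crs src dst {x} := by
    rw [Cut3.mem_crs, mem_singleton, mem_singleton]
    rcases he with ⟨a, b⟩ | ⟨a, b⟩
    · rw [a, b]
      intro h
      exact hne (h.1 rfl).symm
    · rw [a, b]
      intro h
      exact hne (h.2 rfl).symm
  have h1 : (crs src dst {x}).card ≠ 1 := by
    have := hM.br {x} (disjoint_empty_right _)
    rwa [sdiff_empty] at this
  have h0 : 0 < (crs src dst {x}).card := card_pos.2 ⟨e, hmem⟩
  by_contra hcon
  push Not at hcon
  have h2 : (crs src dst {x}).card = 2 := by omega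
  have h3 : ((crs src dst {x}).erase e).card = 1 := by
    rw [card_erase_of_mem hmem, h2]
  obtain ⟨e', he'⟩ := card_eq_one.1 h3
  have hmem' : e' ∈ crs src dst {x} := mem_of_mem_erase (by rw [he']; exact mem_singleton_self _)
  have hne' : e' ≠ e := by
    have : e' ∈ (crs src dst {x}).erase e := by rw [he']; exact mem_singleton_self _
    exact (mem_erase.1 this).1
  have hcrs : crs src dst {x} = {e, e'} := by
    rw [← insert_erase hmem, he']
  obtain ⟨f, hf0, _, hf2⟩ := hM.crit {e} ⟨e, mem_singleton_self _, by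
    rcases he with ⟨a, b⟩ | ⟨a, b⟩
    · rw [a, b]; exact hne
    · rw [a, b]; exact hne.symm⟩
  have hs := Cut3.sum_cut (src := src) (dst := dst) (f := f) (Y := {x}) (fun v _ => hf0 v)
  rw [hcrs, sum_pair hne'.symm] at hs
  have hfe' : f e' ≠ 0 := hf2 e' (notMem_empty _) (by simpa using hne')
  have hfe : f e ≠ 0 := by
    intro h0
    rw [h0] at hs
    apply hfe'
    split_ifs at hs <;> simpa using hs
  apply hM.nf
  refine ⟨f, hf0, fun e he => absurd he (notMem_empty _), fun d _ _ => ?_⟩
  by_cases hd : d = e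
  · rw [hd]; exact hfe
  · exact hf2 d (notMem_empty _) (by simpa using hd)

theorem threeC (hc : St_contract) (hM : MinC src dst) : Three (Adj src dst) := by
  intro x y hxy
  obtain ⟨e1, m1, e2, m2, e3, m3, n12, n13, n23⟩ := Finset.two_lt_card.1
    (show 2 < (crs src dst {x}).card by have := cut_three hM hxy; omega)
  obtain ⟨z1, hz1, j1⟩ := GiAux.mem_crs_singleton m1
  obtain ⟨z2, hz2, j2⟩ := GiAux.mem_crs_singleton m2
  obtain ⟨z3, hz3, j3⟩ := GiAux.mem_crs_singleton m3
  refine ⟨z1, z2, z3, ⟨hz1.symm, e1, j1⟩, ⟨hz2.symm, e2, j2⟩, ⟨hz3.symm, e3, j3⟩, ?_, ?_, ?_⟩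
  · rintro rfl
    exact n12 (no_par hc hM hz1.symm j1 j2)
  · rintro rfl
    exact n13 (no_par hc hM hz1.symm j1 j3)
  · rintro rfl
    exact n23 (no_par hc hM hz2.symm j2 j3)

end

end Pool.Agent.Y358.IN
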