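import Pool.Agent.Y358.IN.Base
import Pool.Agent.Y335.FL.Order
import Pool.Agent.Y335.FL.Ahl

/-!
# Weights of the vertices

If the sum of `1 / (max (|N(v)|, 3) - 2)` over the vertices is less than 126 then a bridgeless
graph has a nowhere-zero flow.
-/

set_option autoImplicit false
set_option linter.unusedSectionVars false

namespace Pool.Agent.Y358.IN

open Finset Pool.Agent.TH676.Z Pool.Agent.Y335.FL

section

variable {V E : Type} [Fintype V] [DecidableEq V] [Fintype E] [DecidableEq E]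

open Classical in
/-- the neighbours -/
noncomputable def nb (src dst : E → V) (v : V) : Finset V :=
  univ.filter (fun w => Adj src dst v w)

/-- the weight -/
noncomputable def wt (src dst : E → V) (v : V) : ℝ :=
  1 / (((max (nb src dst v).card 3 : ℕ) : ℝ) - 2)

theorem wt_nonneg (src dst : E → V) (v : V) : 0 ≤ wt src dst v := by
  unfold wt
  have h : (3 : ℝ) ≤ ((max (nb src dst v).card 3 : ℕ) : ℝ) := by
    exact_mod_cast le_max_right _ _
  apply div_nonneg zero_le_one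
  linarith

/-- the contractions of a graph -/
def ClR (s0 d0 : E → V) (src dst : E → V) : Prop := ∃ r : V → V, src = r ∘ s0 ∧ dst = r ∘ d0

theorem ccR (s0 d0 : E → V) : CC (ClR s0 d0) := by
  rintro src dst e ⟨r, rfl, rfl⟩ _
  exact ⟨ctr (r (s0 e)) (r (d0 e)) ∘ r, rfl, rfl⟩

/-- the edges which leave the fibre at `v` -/
def ou (r : V → V) (s0 d0 : E → V) (v : V) : Finset E :=
  univ.filter (fun e => r (s0 e) ≠ r (d0 e) ∧ (s0 e = v ∨ d0 e = v))

theorem mem_ou {r : V → V} {s0 d0 : E → V} {v : V} {e : E} :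
    e ∈ ou r s0 d0 v ↔ r (s0 e) ≠ r (d0 e) ∧ (s0 e = v ∨ d0 e = v) := by simp [ou]

theorem sum_ou (r : V → V) (s0 d0 : E → V) (h : V) :
    ∑ v ∈ univ.filter (fun v => r v = h), (ou r s0 d0 v).card ≤ dg (r ∘ s0) (r ∘ d0) h := by
  rw [← card_biUnion]
  · rw [Ord.dg_eq]
    refine card_le_card fun e he => ?_
    obtain ⟨v, hv, he⟩ := mem_biUnion.1 he
    obtain ⟨h1, h2⟩ := mem_ou.1 he
    have hv' := (mem_filter.1 hv).2
    rw [Ord.mem_sg]
    refine ⟨h1, ?_⟩
    rcases h2 with h2 | h2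
    · exact Or.inl (by simp [h2, hv'])
    · exact Or.inr (by simp [h2, hv'])
  · intro v hv w hw hne
    change Disjoint (ou r s0 d0 v) (ou r s0 d0 w)
    rw [disjoint_left]
    intro e he he'
    obtain ⟨h1, h2⟩ := mem_ou.1 he
    obtain ⟨_, h3⟩ := mem_ou.1 he'
    have hv' : r v = h := (mem_filter.1 hv).2
    have hw' : r w = h := (mem_filter.1 hw).2
    apply h1
    rcases h2 with h2 | h2 <;> rcases h3 with h3 | h3
    · exact absurd (h2.symm.trans h3) hne
    · rw [h2, h3, hv', hw']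
    · rw [h2, h3, hv', hw']
    · exact absurd (h2.symm.trans h3) hne

theorem nb_le (r : V → V) (s0 d0 : E → V) (v : V) :
    (nb s0 d0 v).card + 1 ≤ (univ.filter (fun w => r w = r v)).card + (ou r s0 d0 v).card := by
  classical
  set F := univ.filter (fun w => r w = r v) with hF
  have hvF : v ∈ F := mem_filter.2 ⟨mem_univ _, rfl⟩
  have h1 : nb s0 d0 v ⊆ F.erase v ∪
      (ou r s0 d0 v).image (fun e => if s0 e = v then d0 e else s0 e) := by
    intro w hw
    obtain ⟨hne, e, he⟩ := (mem_filter.1 hw).2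
    by_cases hwF : r w = r v
    · exact mem_union_left _ (mem_erase.2 ⟨hne.symm, mem_filter.2 ⟨mem_univ _, hwF⟩⟩)
    · refine mem_union_right _ (mem_image.2 ⟨e, ?_, ?_⟩)
      · rw [mem_ou]
        rcases he with ⟨a, b⟩ | ⟨a, b⟩
        · rw [a, b]
          exact ⟨fun h => hwF h.symm, Or.inl rfl⟩
        · rw [a, b]
          exact ⟨hwF, Or.inr rfl⟩
      · rcases he with ⟨a, b⟩ | ⟨a, b⟩
        · rw [if_pos a, b]
        · have : s0 e ≠ v := by rw [a]; exact hne.symm
          rw [if_neg this, a]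
  have h2 := (card_le_card h1).trans (card_union_le _ _)
  have h3 : ((ou r s0 d0 v).image (fun e => if s0 e = v then d0 e else s0 e)).card ≤
      (ou r s0 d0 v).card := card_image_le
  rw [card_erase_of_mem hvF] at h2
  have h4 : 0 < F.card := card_pos.2 ⟨v, hvF⟩
  omega

theorem poly1 {t D : ℝ} (ht : 1 ≤ t) (hD : 3 ≤ D) : t ^ 2 - 3 * t + D ≤ t ^ 2 * (D - 2) := by
  have h1 : 0 ≤ (t - 1) * (t + 1) * (D - 3) := by
    apply mul_nonneg (mul_nonneg (by linarith) (by linarith)) (by linarith)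
  nlinarith

/-- the weight of a fibre -/
theorem fibre (r : V → V) (s0 d0 : E → V) (h : V) (h3 : 3 ≤ dg (r ∘ s0) (r ∘ d0) h) :
    1 / ((dg (r ∘ s0) (r ∘ d0) h : ℝ) - 2) ≤ ∑ v ∈ univ.filter (fun v => r v = h), wt s0 d0 v := by
  set D := dg (r ∘ s0) (r ∘ d0) h with hD
  set F := univ.filter (fun v => r v = h) with hF
  have hD3 : (3 : ℝ) ≤ D := by exact_mod_cast h3
  have hFne : F.Nonempty := by
    have h4 : 0 < (Ord.sg (r ∘ s0) (r ∘ d0) h).card := by
      rw [← Ord.dg_eq]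
      omega
    obtain ⟨e, he⟩ := card_pos.1 h4
    rcases (Ord.mem_sg.1 he).2 with h5 | h5
    · exact ⟨s0 e, mem_filter.2 ⟨mem_univ _, h5⟩⟩
    · exact ⟨d0 e, mem_filter.2 ⟨mem_univ _, h5⟩⟩
  by_cases hsm : ∃ v ∈ F, (nb s0 d0 v).card ≤ 3
  · obtain ⟨v, hv, hv3⟩ := hsm
    have h5 : wt s0 d0 v = 1 := by
      unfold wt
      rw [max_eq_right hv3]
      norm_num
    have h6 : wt s0 d0 v ≤ ∑ v ∈ F, wt s0 d0 v :=
      single_le_sum (fun w _ => wt_nonneg s0 d0 w) hv
    have h7 : 1 / ((D : ℝ) - 2) ≤ 1 := by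
      rw [div_le_one (by linarith)]
      linarith
    linarith
  · push Not at hsm
    set t : ℝ := (F.card : ℝ) with ht
    have ht1 : 1 ≤ t := by
      rw [ht]
      exact_mod_cast card_pos.2 hFne
    have hnb : ∀ v ∈ F, ((nb s0 d0 v).card : ℝ) + 1 ≤ t + (ou r s0 d0 v).card := by
      intro v hv
      have h4 := nb_le r s0 d0 v
      rw [(mem_filter.1 hv).2] at h4
      rw [ht]
      exact_mod_cast h4
    have hg : ∀ v ∈ F, (0 : ℝ) < t - 3 + (ou r s0 d0 v).card := by
      intro v hv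
      have h5 := hnb v hv
      have h6 : (4 : ℝ) ≤ (nb s0 d0 v).card := by exact_mod_cast hsm v hv
      linarith
    have hw : ∀ v ∈ F, 1 ^ 2 / (t - 3 + (ou r s0 d0 v).card) ≤ wt s0 d0 v := by
      intro v hv
      have h5 := hnb v hv
      have h6 : (4 : ℝ) ≤ (nb s0 d0 v).card := by exact_mod_cast hsm v hv
      unfold wt
      rw [max_eq_left (by have := hsm v hv; omega), one_pow]
      apply one_div_le_one_div_of_le (by linarith)
      linarith
    have h7 := sq_sum_div_le_sum_sq_div F (fun _ => (1 : ℝ)) hg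
    have h8 : ∑ v ∈ F, ((1 : ℝ) ^ 2 / (t - 3 + (ou r s0 d0 v).card)) ≤ ∑ v ∈ F, wt s0 d0 v :=
      sum_le_sum hw
    refine le_trans ?_ (h7.trans h8)
    have h9 : ∑ _v ∈ F, (1 : ℝ) = t := by simp [ht]
    have h10 : ∑ v ∈ F, (t - 3 + ((ou r s0 d0 v).card : ℝ)) ≤ t ^ 2 - 3 * t + D := by
      rw [sum_add_distrib, sum_const, nsmul_eq_mul, ← Nat.cast_sum]
      have h11 : ((∑ v ∈ F, (ou r s0 d0 v).card : ℕ) : ℝ) ≤ D := by
        exact_mod_cast sum_ou r s0 d0 h
      rw [← ht]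
      linarith [sq t]
    have h12 : 0 < ∑ v ∈ F, (t - 3 + ((ou r s0 d0 v).card : ℝ)) := sum_pos hg hFne
    rw [h9, div_le_div_iff₀ (by linarith) h12, one_mul]
    exact h10.trans (poly1 ht1 hD3)

variable {src dst : E → V}

theorem dg_le_nb (hc : St_contract) (hM : MinC src dst) (x : V) :
    dg src dst x ≤ (nb src dst x).card := by
  classical
  rw [Ord.dg_eq]
  refine card_le_card_of_injOn (fun e => if src e = x then dst e else src e) ?_ ?_
  · intro e he
    obtain ⟨hne, he⟩ := Ord.mem_sg.1 (mem_coe.1 he)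
    refine mem_coe.2 (mem_filter.2 ⟨mem_univ _, ?_⟩)
    show Adj src dst x (if src e = x then dst e else src e)
    by_cases h : src e = x
    · rw [if_pos h]
      exact ⟨by rw [← h]; exact hne, e, Or.inl ⟨h, rfl⟩⟩
    · rw [if_neg h]
      have h2 : dst e = x := he.resolve_left h
      exact ⟨Ne.symm h, e, Or.inr ⟨rfl, h2⟩⟩
  · intro e he e' he' heq
    obtain ⟨hne, he⟩ := Ord.mem_sg.1 (mem_coe.1 he)
    obtain ⟨hne', he'⟩ := Ord.mem_sg.1 (mem_coe.1 he')
    have key : ∀ d : E, src d ≠ dst d → (src d = x ∨ dst d = x) →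
        x ≠ (if src d = x then dst d else src d) ∧
        Jn src dst d x (if src d = x then dst d else src d) := by
      intro d h1 h2
      by_cases h : src d = x
      · rw [if_pos h]
        exact ⟨by rw [← h]; exact h1, Or.inl ⟨h, rfl⟩⟩
      · rw [if_neg h]
        exact ⟨Ne.symm h, Or.inr ⟨rfl, h2.resolve_left h⟩⟩
    obtain ⟨k1, k2⟩ := key e hne he
    obtain ⟨_, k4⟩ := key e' hne' he'
    have heq' : (if src e = x then dst e else src e) = (if src e' = x then dst e' else src e') :=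
      heq
    rw [← heq'] at k4
    exact no_par hc hM k1 k2 k4

theorem poly2 {x N : ℝ} (hx : 2 ≤ x) (h : 2 * ∑ i ∈ range 6, x ^ i ≤ N) : 126 * (x - 1) ≤ N := by
  refine le_trans ?_ h
  rw [sum_range_succ, sum_range_succ, sum_range_succ, sum_range_succ, sum_range_succ,
    sum_range_succ, sum_range_zero]
  obtain ⟨y, hy, rfl⟩ : ∃ y, 0 ≤ y ∧ x = 2 + y := ⟨x - 2, by linarith, by ring⟩
  have h2 : 0 ≤ y ^ 2 := by positivity
  have h3 : 0 ≤ y ^ 3 := by positivity
  have h4 : 0 ≤ y ^ 4 := by positivity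
  have h5 : 0 ≤ y ^ 5 := by positivity
  nlinarith

/-- the weight of the minimal counterexample -/
theorem weight_min (hc : St_contract) (ha : St_ahl) (hM : MinC src dst)
    (hex : ∃ x y, Adj src dst x y) :
    (126 : ℝ) ≤ ∑ x, if 3 ≤ dg src dst x then 1 / ((dg src dst x : ℝ) - 2) else 0 := by
  classical
  have h3 := threeC hc hM
  have hgi := girthC hc hM
  set B : Finset V := univ.filter (fun v => ∃ y, Adj src dst v y) with hB
  have hmB : ∀ v, v ∈ B ↔ ∃ y, Adj src dst v y := fun v => by simp [hB]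
  let G : SimpleGraph B :=
    { Adj := fun a b => Adj src dst a b
      symm := ⟨fun a b h => GiAux.adj_symm h⟩
      loopless := ⟨fun a h => h.1 rfl⟩ }
  have hGA : ∀ a b : B, G.Adj a b ↔ Adj src dst a b := fun a b => Iff.rfl
  obtain ⟨x0, y0, hxy0⟩ := hex
  haveI : Nonempty B := ⟨⟨x0, (hmB x0).2 ⟨y0, hxy0⟩⟩⟩
  have hdeg : ∀ a : B, dg src dst a ≤ G.degree a := by
    intro a
    refine (dg_le_nb hc hM a).trans ?_
    rw [← G.card_neighborFinset_eq_degree]
    have h5 : nb src dst a ⊆ (G.neighborFinset a).map (Function.Embedding.subtype _) := by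
      intro w hw
      have hw' : Adj src dst a w := (mem_filter.1 hw).2
      have hwB : w ∈ B := (hmB w).2 ⟨a, GiAux.adj_symm hw'⟩
      rw [mem_map]
      exact ⟨⟨w, hwB⟩, by rw [SimpleGraph.mem_neighborFinset, hGA]; exact hw', rfl⟩
    have h6 := card_le_card h5
    rwa [card_map] at h6
  have hdg3 : ∀ a : B, 3 ≤ dg src dst a := by
    intro a
    obtain ⟨y, hy⟩ := (hmB a).1 a.2
    exact Ord.three_dg h3 hy
  have hdeg3 : ∀ a : B, 3 ≤ G.degree a := fun a => (hdg3 a).trans (hdeg a)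
  have hahl := ha B G (fun a => by have := hdeg3 a; omega) (by
    intro k hk v hv h
    exact hgi k hk (fun i => (v i : V)) (fun i j hij => hv (Subtype.ext hij)) h)
  set N : ℝ := (Fintype.card B : ℝ) with hN
  set m : ℝ := (G.edgeFinset.card : ℝ) with hm
  have hN0 : 0 < N := by
    rw [hN]
    exact_mod_cast Fintype.card_pos
  have hsum : ∑ a : B, (G.degree a : ℝ) = 2 * m := by
    rw [hm]
    exact_mod_cast G.sum_degrees_eq_twice_card_edges
  have h2m : 3 * N ≤ 2 * m := by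
    rw [← hsum]
    have : ∑ _a : B, (3 : ℝ) ≤ ∑ a : B, (G.degree a : ℝ) :=
      sum_le_sum fun a _ => by exact_mod_cast hdeg3 a
    rw [sum_const, card_univ, nsmul_eq_mul] at this
    linarith
  set x : ℝ := 2 * m / N - 1 with hx
  have hx2 : 2 ≤ x := by
    rw [hx]
    have : 3 ≤ 2 * m / N := by rwa [le_div_iff₀ hN0]
    linarith
  have hNx := poly2 hx2 hahl
  have hg : ∀ a ∈ (univ : Finset B), (0 : ℝ) < (G.degree a : ℝ) - 2 := by
    intro a _
    have : (3 : ℝ) ≤ G.degree a := by exact_mod_cast hdeg3 a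
    linarith
  have htitu := sq_sum_div_le_sum_sq_div univ (fun _ => (1 : ℝ)) hg
  have h9 : ∑ _a : B, (1 : ℝ) = N := by simp [hN]
  have h10 : ∑ a : B, ((G.degree a : ℝ) - 2) = N * (x - 1) := by
    rw [sum_sub_distrib, hsum, sum_const, card_univ, nsmul_eq_mul, hx]
    field_simp
    ring
  rw [h9, h10] at htitu
  have h11 : (126 : ℝ) ≤ N ^ 2 / (N * (x - 1)) := by
    rw [le_div_iff₀ (mul_pos hN0 (by linarith))]
    nlinarith
  refine (h11.trans htitu).trans ?_
  have h12 : ∑ a : B, (1 : ℝ) ^ 2 / ((G.degree a : ℝ) - 2) ≤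
      ∑ a : B, (if 3 ≤ dg src dst a then 1 / ((dg src dst a : ℝ) - 2) else 0) := by
    refine sum_le_sum fun a _ => ?_
    rw [if_pos (hdg3 a), one_pow]
    have h13 : (3 : ℝ) ≤ dg src dst a := by exact_mod_cast hdg3 a
    have h14 : (dg src dst a : ℝ) ≤ G.degree a := by exact_mod_cast hdeg a
    exact one_div_le_one_div_of_le (by linarith) (by linarith)
  refine h12.trans ?_
  rw [sum_coe_sort B (fun a => if 3 ≤ dg src dst a then 1 / ((dg src dst a : ℝ) - 2) else 0)]
  refine sum_le_sum_of_subset_of_nonneg (subset_univ _) fun a _ _ => ?_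
  split_ifs with h
  · have h13 : (3 : ℝ) ≤ dg src dst a := by exact_mod_cast h
    exact div_nonneg zero_le_one (by linarith)
  · exact le_rfl

/-- **Main step.** -/
theorem flow_of_weight (hc : St_contract) (ha : St_ahl) (s0 d0 : E → V)
    (hw : ∑ v, wt s0 d0 v < 126) (hbr : Br s0 d0 ∅ ∅) : FlowOn s0 d0 ∅ ∅ := by
  classical
  by_contra hn
  obtain ⟨s, d, ⟨r, rfl, rfl⟩, hM⟩ := exists_minC (ccR s0 d0) s0 d0 ⟨id, rfl, rfl⟩ hbr hn
  by_cases hl : ∀ e, (r ∘ s0) e = (r ∘ d0) e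
  · exact hM.nf (flow_of_loops hl)
  push Not at hl
  obtain ⟨e, he⟩ := hl
  have h1 := weight_min hc ha hM ⟨(r ∘ s0) e, (r ∘ d0) e, he, e, Or.inl ⟨rfl, rfl⟩⟩
  have h2 : ∑ h, (if 3 ≤ dg (r ∘ s0) (r ∘ d0) h then 1 / ((dg (r ∘ s0) (r ∘ d0) h : ℝ) - 2)
      else 0) ≤ ∑ h, ∑ v ∈ univ.filter (fun v => r v = h), wt s0 d0 v := by
    refine sum_le_sum fun h _ => ?_
    split_ifs with h3
    · exact fibre r s0 d0 h h3
    · exact sum_nonneg fun v _ => wt_nonneg s0 d0 v
  rw [sum_fiberwise] at h2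
  linarith

end

end Pool.Agent.Y358.IN
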