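import Pool.Agent.Y358.IN.Base
import Pool.Agent.Y335.FL.Order

/-!
# Independent sets outside a set of vertices

The class of the graphs with a set `S` of vertices such that every independent set `I` of vertices
of degree at least three outside `S` satisfies `3 |I| + |S| ≤ 125`.
-/

set_option autoImplicit false
set_option linter.unusedSectionVars false

namespace Pool.Agent.Y358.IN

open Finset Pool.Agent.TH676.Z Pool.Agent.Y335.FL

section

variable {V E : Type} [Fintype V] [DecidableEq V] [Fintype E] [DecidableEq E]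

/-- the class -/
def ClI (src dst : E → V) : Prop := ∃ S : Finset V, ∀ I : Finset V, (∀ x ∈ I, x ∉ S) →
  (∀ x ∈ I, 3 ≤ dg src dst x) → (∀ x ∈ I, ∀ y ∈ I, ¬ Adj src dst x y) →
    3 * I.card + S.card ≤ 125

theorem ctr_u (u v : V) (h : u ≠ v) : ctr u v u = u := by
  unfold ctr
  rw [if_neg h]

theorem ctr_v (u v : V) : ctr u v v = u := by
  unfold ctr
  rw [if_pos rfl]

theorem ctr_of_ne {u v x : V} (h : x ≠ v) : ctr u v x = x := by
  unfold ctr
  rw [if_neg h]

theorem adj_ctr {src dst : E → V} {u v x y : V} (h : Adj src dst x y)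
    (hne : ctr u v x ≠ ctr u v y) :
    Adj (ctr u v ∘ src) (ctr u v ∘ dst) (ctr u v x) (ctr u v y) := by
  obtain ⟨_, e, he⟩ := h
  refine ⟨hne, e, ?_⟩
  rcases he with ⟨a, b⟩ | ⟨a, b⟩
  · exact Or.inl ⟨by simp [a], by simp [b]⟩
  · exact Or.inr ⟨by simp [a], by simp [b]⟩

theorem ccI : CC (V := V) (E := E) ClI := by
  intro src dst e h hne
  obtain ⟨S, hS⟩ := h
  set u := src e with hu
  set v := dst e with hv
  refine ⟨S.image (ctr u v), ?_⟩
  intro I hIS hdg hind
  have hvI : v ∉ I := by
    intro h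
    have h1 := hdg v h
    rw [Ord.dg_ctr_v src dst hne] at h1
    omega
  have hxS : ∀ x ∈ I, x ∉ S := by
    intro x hx hxS
    apply hIS x hx
    have : x ≠ v := fun h => hvI (h ▸ hx)
    exact mem_image.2 ⟨x, hxS, ctr_of_ne this⟩
  have hcard : (S.image (ctr u v)).card ≤ S.card := card_image_le
  by_cases huI : u ∈ I
  · have h2 : dg (ctr u v ∘ src) (ctr u v ∘ dst) u + 2 ≤ dg src dst u + dg src dst v :=
      Ord.dg_ctr_u src dst e hne
    have h3 := hdg u huI
    obtain ⟨w, hw, hwd⟩ : ∃ w, (w = u ∨ w = v) ∧ 3 ≤ dg src dst w := by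
      by_cases h4 : 3 ≤ dg src dst u
      · exact ⟨u, Or.inl rfl, h4⟩
      · exact ⟨v, Or.inr rfl, by omega⟩
    have hcw : ctr u v w = u := by
      rcases hw with rfl | rfl
      · exact ctr_u _ _ hne
      · exact ctr_v _ _
    have hwS : w ∉ S := fun h => hIS u huI (mem_image.2 ⟨w, h, hcw⟩)
    have hwI : w ∉ I.erase u := by
      rcases hw with h | h
      · rw [h]
        exact fun h => (mem_erase.1 h).1 rfl
      · rw [h]
        exact fun h => hvI (mem_of_mem_erase h)
    have hwx : ∀ x ∈ I.erase u, ¬ Adj src dst w x := by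
      intro x hx hadj
      have hxI := mem_of_mem_erase hx
      have hxu : x ≠ u := (mem_erase.1 hx).1
      have hxv : x ≠ v := fun h => hvI (h ▸ hxI)
      have h5 := adj_ctr (u := u) (v := v) hadj (by
        rw [hcw, ctr_of_ne hxv]
        exact hxu.symm)
      rw [hcw, ctr_of_ne hxv] at h5
      exact hind u huI x hxI h5
    have h6 := hS (insert w (I.erase u)) ?_ ?_ ?_
    · rw [card_insert_of_notMem hwI, card_erase_of_mem huI] at h6
      have h7 : 0 < I.card := card_pos.2 ⟨u, huI⟩
      omega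
    · intro x hx
      rcases mem_insert.1 hx with rfl | hx
      · exact hwS
      · exact hxS x (mem_of_mem_erase hx)
    · intro x hx
      rcases mem_insert.1 hx with rfl | hx
      · exact hwd
      · exact (hdg x (mem_of_mem_erase hx)).trans
          (Ord.dg_ctr_other src dst (mem_erase.1 hx).1)
    · intro x hx y hy hadj
      rcases mem_insert.1 hx with hx | hx <;> rcases mem_insert.1 hy with hy | hy
      · exact hadj.1 (hx.trans hy.symm)
      · rw [hx] at hadj
        exact hwx y hy hadj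
      · rw [hy] at hadj
        exact hwx x hx (GiAux.adj_symm hadj)
      · have hx' := mem_of_mem_erase hx
        have hy' := mem_of_mem_erase hy
        have hxv : x ≠ v := fun h => hvI (h ▸ hx')
        have hyv : y ≠ v := fun h => hvI (h ▸ hy')
        have h5 := adj_ctr (u := u) (v := v) hadj (by
          rw [ctr_of_ne hxv, ctr_of_ne hyv]
          exact hadj.1)
        rw [ctr_of_ne hxv, ctr_of_ne hyv] at h5
        exact hind x hx' y hy' h5
  · have h6 := hS I hxS ?_ ?_
    · omega
    · intro x hx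
      refine (hdg x hx).trans (Ord.dg_ctr_other src dst ?_)
      rintro rfl
      exact huI hx
    · intro x hx y hy hadj
      have hxv : x ≠ v := fun h => hvI (h ▸ hx)
      have hyv : y ≠ v := fun h => hvI (h ▸ hy)
      have h5 := adj_ctr (u := u) (v := v) hadj (by
        rw [ctr_of_ne hxv, ctr_of_ne hyv]
        exact hadj.1)
      rw [ctr_of_ne hxv, ctr_of_ne hyv] at h5
      exact hind x hx y hy h5

end

/-- a large independent set in a 2-degenerate graph -/
theorem indep_set {V : Type} [DecidableEq V] (Ad : V → V → Prop) [DecidableRel Ad]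
    (hs : ∀ a b, Ad a b → Ad b a) (hi : ∀ a, ¬ Ad a a) (n : ℕ) :
    ∀ X : Finset V, X.card = n →
      (∀ Y ⊆ X, Y.Nonempty → ∃ v ∈ Y, (Y.filter (Ad v)).card ≤ 2) →
      ∃ I ⊆ X, (∀ x ∈ I, ∀ y ∈ I, ¬ Ad x y) ∧ X.card ≤ 3 * I.card := by
  induction n using Nat.strong_induction_on with
  | _ n ih =>
    intro X hX hdeg
    rcases X.eq_empty_or_nonempty with rfl | hne
    · exact ⟨∅, subset_refl _, by simp, by simp⟩
    · obtain ⟨v, hv, hv2⟩ := hdeg X (subset_refl _) hne
      set X' := (X.erase v).filter (fun x => ¬ Ad v x) with hX'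
      have h1 : (X.erase v).card = ((X.erase v).filter (fun x => Ad v x)).card + X'.card := by
        rw [hX', card_filter_add_card_filter_not]
      have h2 : ((X.erase v).filter (fun x => Ad v x)).card ≤ (X.filter (Ad v)).card :=
        card_le_card (filter_subset_filter _ (erase_subset _ _))
      have h3 : (X.erase v).card = X.card - 1 := card_erase_of_mem hv
      have h4 : 0 < X.card := card_pos.2 hne
      have hsub : X' ⊆ X := (filter_subset _ _).trans (erase_subset _ _)
      have hlt : X'.card < n := by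
        have : X'.card ≤ (X.erase v).card := card_le_card (filter_subset _ _)
        omega
      obtain ⟨I, hI, hind, hc⟩ := ih X'.card hlt X' rfl
        (fun Y hY hYn => hdeg Y (hY.trans hsub) hYn)
      have hvI : v ∉ I := by
        intro h
        have := mem_filter.1 (hI h)
        exact (mem_erase.1 this.1).1 rfl
      have hva : ∀ x ∈ I, ¬ Ad v x := fun x hx => (mem_filter.1 (hI hx)).2
      refine ⟨insert v I, insert_subset hv (hI.trans hsub), ?_, ?_⟩
      · intro x hx y hy hxy
        rcases mem_insert.1 hx with h5 | h5 <;> rcases mem_insert.1 hy with h6 | h6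
        · rw [h5, h6] at hxy
          exact hi _ hxy
        · rw [h5] at hxy
          exact hva y h6 hxy
        · rw [h6] at hxy
          exact hva x h5 (hs _ _ hxy)
        · exact hind x h5 y h6 hxy
      · rw [card_insert_of_notMem hvI]
        omega

/-- **Main step.** -/
theorem flow_of_ClI (hc : St_contract) (hm : St_moore) {V E : Type} [Fintype V] [DecidableEq V]
    [Fintype E] [DecidableEq E] (src dst : E → V) (hcl : ClI src dst) (hbr : Br src dst ∅ ∅) :
    FlowOn src dst ∅ ∅ := by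
  classical
  by_contra hn
  obtain ⟨s, d, ⟨S, hS⟩, hM⟩ := exists_minC ccI src dst hcl hbr hn
  have h3 := threeC hc hM
  have hgi := girthC hc hM
  have hsy : ∀ a b, Adj s d a b → Adj s d b a := fun a b h => GiAux.adj_symm h
  have hir : ∀ a, ¬ Adj s d a a := fun a h => h.1 rfl
  by_cases hl : ∀ e, s e = d e
  · exact hM.nf (flow_of_loops hl)
  push Not at hl
  obtain ⟨e, he⟩ := hl
  have h1 := hm V (Adj s d) hsy hir hgi h3 ⟨s e, d e, he, e, Or.inl ⟨rfl, rfl⟩⟩
  set B : Finset V := univ.filter (fun v => ∃ y, Adj s d v y) with hB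
  have hBS : B.card ≤ (B \ S).card + S.card := by
    have := le_card_sdiff S B
    omega
  obtain ⟨X, hX, hXc⟩ := exists_subset_card_eq (s := B \ S) (n := min (B \ S).card 125)
    (min_le_left _ _)
  obtain ⟨I, hI, hind, hIc⟩ := indep_set (Adj s d) hsy hir X.card X rfl (by
    intro Y hY hYn
    by_contra hcon
    push Not at hcon
    obtain ⟨y0, hy0⟩ := hYn
    have hnb : ∀ x ∈ Y, ∃ a b c, (Adj s d x a ∧ a ∈ Y) ∧ (Adj s d x b ∧ b ∈ Y) ∧
        (Adj s d x c ∧ c ∈ Y) ∧ a ≠ b ∧ a ≠ c ∧ b ≠ c := by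
      intro x hx
      obtain ⟨a, ha, b, hb, c, hc, hab, hac, hbc⟩ := two_lt_card.1 (hcon x hx)
      rw [mem_filter] at ha hb hc
      exact ⟨a, b, c, ⟨ha.2, ha.1⟩, ⟨hb.2, hb.1⟩, ⟨hc.2, hc.1⟩, hab, hac, hbc⟩
    have h5 := hm V (fun a b => Adj s d a b ∧ a ∈ Y ∧ b ∈ Y)
      (fun a b h => ⟨hsy a b h.1, h.2.2, h.2.1⟩) (fun a h => hir a h.1)
      (fun k hk v hv h => hgi k hk v hv (fun i => (h i).1))
      (fun x y h => by
        obtain ⟨a, b, c, ha, hb, hc, hab, hac, hbc⟩ := hnb x h.2.1
        exact ⟨a, b, c, ⟨ha.1, h.2.1, ha.2⟩, ⟨hb.1, h.2.1, hb.2⟩, ⟨hc.1, h.2.1, hc.2⟩,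
          hab, hac, hbc⟩)
      (by
        obtain ⟨a, _, _, ha, _⟩ := hnb y0 hy0
        exact ⟨y0, a, ha.1, hy0, ha.2⟩)
    have h6 : (univ.filter (fun v => ∃ y, Adj s d v y ∧ v ∈ Y ∧ y ∈ Y)) ⊆ Y := by
      intro v hv
      obtain ⟨_, y, hy⟩ := mem_filter.1 hv
      exact hy.2.1
    have h7 := card_le_card h6
    have h8 := card_le_card hY
    omega)
  have hIB : ∀ x ∈ I, x ∈ B ∧ x ∉ S := fun x hx => mem_sdiff.1 (hX (hI hx))
  have h9 := hS I (fun x hx => (hIB x hx).2) (fun x hx => by
    obtain ⟨_, y, hy⟩ := mem_filter.1 (hIB x hx).1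
    exact Ord.three_dg h3 hy) hind
  omega

end Pool.Agent.Y358.IN
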